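import Mathlib

/-!
# Online matching with delays on the uniform metric: definitions

The point set of the uniform metric is `Fin n`; two distinct points are at distance `D`.
-/

open MeasureTheory

namespace Helper42_MCD

/-- A request sequence on the uniform metric with point set `Fin n`: finitely many requests, an
even number of them, listed in the order of arrival.  Request number `i` arrives at time
`arrival i ≥ 0` at the point `loc i`. -/
structure RequestSeq (n : ℕ) where
  size : ℕ
  even : Even size
  arrival : Fin size → ℝ
  loc : Fin size → Fin n
  nonneg : ∀ i, 0 ≤ arrival i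
  sorted : Monotone arrival

/-- A (complete) solution for the request sequence `σ`: every request `i` is matched with exactly
one other request `partner i`, at the time `time i`, which is the same for both of them and which
is not earlier than the arrival of either. -/
structure Schedule {n : ℕ} (σ : RequestSeq n) where
  partner : Fin σ.size → Fin σ.size
  time : Fin σ.size → ℝ
  partner_ne : ∀ i, partner i ≠ i
  partner_partner : ∀ i, partner (partner i) = i
  time_partner : ∀ i, time (partner i) = time i
  arrived : ∀ i, σ.arrival i ≤ time i

/-- The uniform metric on `Fin n`. -/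
noncomputable def udist {n : ℕ} (D : ℝ) (x y : Fin n) : ℝ := if x = y then 0 else D

/-- The total cost of a solution: the sum over all requests of the delay cost
`f (time of the match - time of arrival)`, plus the sum over all matched pairs (each of them
counted once, at its request with the smaller index) of the connection cost. -/
noncomputable def Schedule.cost {n : ℕ} {σ : RequestSeq n} (f : ℝ → ℝ) (D : ℝ)
    (S : Schedule σ) : ℝ :=
  ∑ i, f (S.time i - σ.arrival i)
    + ∑ i, if i < S.partner i then udist D (σ.loc i) (σ.loc (S.partner i)) else 0

/-- The offline optimum: the infimum of the costs of all solutions. -/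
noncomputable def opt {n : ℕ} (f : ℝ → ℝ) (D : ℝ) (σ : RequestSeq n) : ℝ :=
  sInf (Set.range fun S : Schedule σ => S.cost f D)

/-- The request sequences `σ` and `σ'` cannot be distinguished at time `t`: the requests that have
arrived up to time `t` (with `t` included) are the same in both of them. -/
def SameUpTo {n : ℕ} (σ σ' : RequestSeq n) (t : ℝ) : Prop :=
  (∀ i : Fin σ.size, σ.arrival i ≤ t →
    ∃ i' : Fin σ'.size, (i' : ℕ) = i ∧ σ'.arrival i' = σ.arrival i ∧ σ'.loc i' = σ.loc i) ∧
  (∀ i' : Fin σ'.size, σ'.arrival i' ≤ t →
    ∃ i : Fin σ.size, (i : ℕ) = i' ∧ σ.arrival i = σ'.arrival i' ∧ σ.loc i = σ'.loc i')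

/-- A deterministic online algorithm: it produces a solution for every request sequence, and the
matches which it makes up to time `t` depend only on the requests that have arrived up to
time `t`. -/
structure OnlineAlg (n : ℕ) where
  run : (σ : RequestSeq n) → Schedule σ
  online : ∀ (σ σ' : RequestSeq n) (t : ℝ), SameUpTo σ σ' t →
    ∀ (i : Fin σ.size) (i' : Fin σ'.size), (i : ℕ) = i' → (run σ).time i ≤ t →
      (run σ').time i' = (run σ).time i ∧ ((run σ').partner i' : ℕ) = (run σ).partner i

/-- Sanity check: deterministic online algorithms exist.  This one matches the requests number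
`2 j` and `2 j + 1` at the time at which the latter arrives. -/
def consecutiveAlg (n : ℕ) : OnlineAlg n where
  run σ :=
    { partner := fun i => ⟨if (i : ℕ) % 2 = 0 then i + 1 else i - 1, by
        have h1 := i.2
        obtain ⟨r, hr⟩ := σ.even
        split_ifs <;> omega⟩
      time := fun i => σ.arrival ⟨if (i : ℕ) % 2 = 0 then i + 1 else i, by
        have h1 := i.2
        obtain ⟨r, hr⟩ := σ.even
        split_ifs <;> omega⟩
      partner_ne := fun i h => by
        have h' := congrArg Fin.val h
        simp only at h'
        split_ifs at h' <;> omega
      partner_partner := fun i => by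
        apply Fin.ext
        simp only
        split_ifs <;> omega
      time_partner := fun i => by
        simp only
        congr 2
        split_ifs <;> omega
      arrived := fun i => by
        apply σ.sorted
        show (i : ℕ) ≤ if (i : ℕ) % 2 = 0 then (i : ℕ) + 1 else i
        split_ifs <;> omega }
  online := by
    intro σ σ' t hs i i' hii ht
    obtain ⟨k, hk1, hk2, -⟩ := hs.1 _ ht
    simp only at hk1 hk2 ⊢
    refine ⟨?_, ?_⟩
    · rw [← hk2]
      congr 1
      apply Fin.ext
      rw [hk1]
      simp only
      rw [hii]
    · rw [hii]

/-- A randomized online algorithm on the probability space `(Ω, μ)`: a deterministic online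
algorithm `alg ω` for every outcome `ω`, such that for every (fixed) request sequence the cost is
a random variable. -/
structure RandomizedAlg (n : ℕ) (f : ℝ → ℝ) (D : ℝ) (Ω : Type*) [MeasurableSpace Ω] where
  alg : Ω → OnlineAlg n
  measurable_cost : ∀ σ : RequestSeq n, Measurable fun ω => ((alg ω).run σ).cost f D

/-- The expected cost of the randomized algorithm `A` on the request sequence `σ`, as an extended
non-negative real number. -/
noncomputable def RandomizedAlg.expectedCost {n : ℕ} {f : ℝ → ℝ} {D : ℝ} {Ω : Type*}
    [MeasurableSpace Ω] (A : RandomizedAlg n f D Ω) (μ : Measure Ω) (σ : RequestSeq n) :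
    ENNReal :=
  ∫⁻ ω, ENNReal.ofReal (((A.alg ω).run σ).cost f D) ∂μ

/-- The randomized algorithm `A` is `c`-competitive (against the oblivious adversary): up to an
additive constant `B` independent of the request sequence `σ`, its expected cost is at most
`c * opt σ`. -/
def RandomizedAlg.Competitive {n : ℕ} {f : ℝ → ℝ} {D : ℝ} {Ω : Type*}
    [MeasurableSpace Ω] (A : RandomizedAlg n f D Ω) (μ : Measure Ω) (c : ℝ) : Prop :=
  ∃ B : ℝ, ∀ σ : RequestSeq n, A.expectedCost μ σ ≤ ENNReal.ofReal (c * opt f D σ + B)

/-- The class of delay functions of the problem: `f : [0, ∞) → [0, ∞)` is convex, non-decreasing,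
continuous and unbounded, with `f 0 = 0` and (right) derivative `0` at `0`. -/
structure IsDelayFunction (f : ℝ → ℝ) : Prop where
  nonneg : ∀ t, 0 ≤ t → 0 ≤ f t
  convex : ConvexOn ℝ (Set.Ici 0) f
  mono : MonotoneOn f (Set.Ici 0)
  continuous : ContinuousOn f (Set.Ici 0)
  unbounded : ∀ M : ℝ, ∃ t, 0 ≤ t ∧ M < f t
  zero : f 0 = 0
  deriv_zero : HasDerivWithinAt f 0 (Set.Ici 0) 0

/-- The delay function `f(t) = exp (t ^ 2 - 1 / t)` for `t > 0`, and `f(t) = 0` for `t ≤ 0`. -/
noncomputable def superDelay (t : ℝ) : ℝ := if t ≤ 0 then 0 else Real.exp (t ^ 2 - 1 / t)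

end Helper42_MCD
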