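import Pool.Agent.Helper42_MCD.Defs

/-!
# The delay function `exp (t ^ 2 - 1 / t)`
-/

open Filter Topology

namespace Helper42_MCD

lemma sd_pos {t : ℝ} (ht : 0 < t) : superDelay t = Real.exp (t ^ 2 - 1 / t) := by
  unfold superDelay; rw [if_neg (not_le.mpr ht)]

lemma sd_zero : superDelay 0 = 0 := by
  unfold superDelay; simp

lemma sd_nonneg (t : ℝ) : 0 ≤ superDelay t := by
  unfold superDelay
  split_ifs
  · exact le_rfl
  · exact (Real.exp_pos _).le

lemma sd_mono : MonotoneOn superDelay (Set.Ici 0) := by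
  intro s hs t ht hst
  rcases eq_or_lt_of_le (show (0 : ℝ) ≤ s from hs) with h0 | h0
  · rw [← h0, sd_zero]; exact sd_nonneg t
  · have ht0 : 0 < t := lt_of_lt_of_le h0 hst
    rw [sd_pos h0, sd_pos ht0]
    apply Real.exp_le_exp.mpr
    have h1 : 1 / t ≤ 1 / s := one_div_le_one_div_of_le h0 hst
    have h2 : s ^ 2 ≤ t ^ 2 := by nlinarith
    linarith

/-- Quadratic upper bound near `0`. -/
lemma sd_le {t : ℝ} (ht : 0 ≤ t) (ht1 : t ≤ 1) : superDelay t ≤ 6 * t ^ 2 := by
  rcases eq_or_lt_of_le ht with h0 | h0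
  · rw [← h0, sd_zero]; simp
  · rw [sd_pos h0, sub_eq_add_neg, Real.exp_add]
    have h1 : Real.exp (t ^ 2) ≤ 3 := by
      have : Real.exp (t ^ 2) ≤ Real.exp 1 := Real.exp_le_exp.mpr (by nlinarith)
      have h3 := Real.exp_one_lt_d9
      linarith
    have h2 : Real.exp (-(1 / t)) ≤ 2 * t ^ 2 := by
      have h3 : (1 / t) ^ 2 / 2 ≤ Real.exp (1 / t) := by
        have := Real.quadratic_le_exp_of_nonneg (x := 1 / t) (by positivity)
        have h4 : (0 : ℝ) ≤ 1 / t := by positivity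
        linarith
      rw [Real.exp_neg]
      have h5 : (0 : ℝ) < (1 / t) ^ 2 / 2 := by positivity
      calc (Real.exp (1 / t))⁻¹ ≤ ((1 / t) ^ 2 / 2)⁻¹ := inv_anti₀ h5 h3
        _ = 2 * t ^ 2 := by field_simp
    have h6 := Real.exp_pos (-(1 / t))
    have h7 : (0 : ℝ) ≤ 2 * t ^ 2 := by positivity
    calc Real.exp (t ^ 2) * Real.exp (-(1 / t)) ≤ 3 * (2 * t ^ 2) :=
          mul_le_mul h1 h2 h6.le (by norm_num)
      _ = 6 * t ^ 2 := by ring

lemma sd_deriv_zero : HasDerivWithinAt superDelay 0 (Set.Ici 0) 0 := by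
  rw [hasDerivWithinAt_iff_tendsto_slope]
  have hev : ∀ᶠ t in 𝓝[Set.Ici (0 : ℝ) \ {0}] 0, 0 < t ∧ t ≤ 1 := by
    have h1 : ∀ᶠ t in 𝓝[Set.Ici (0 : ℝ) \ {0}] 0, t ∈ Set.Ici (0 : ℝ) \ {0} :=
      self_mem_nhdsWithin
    have h2 : ∀ᶠ t in 𝓝[Set.Ici (0 : ℝ) \ {0}] 0, t < 1 :=
      mem_nhdsWithin_of_mem_nhds (Iio_mem_nhds (by norm_num))
    filter_upwards [h1, h2] with t ht1 ht2
    refine ⟨lt_of_le_of_ne ht1.1 (fun h => ht1.2 h.symm), ht2.le⟩
  have hup : Tendsto (fun t : ℝ => 6 * t) (𝓝[Set.Ici (0 : ℝ) \ {0}] 0) (𝓝 0) := by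
    have : Tendsto (fun t : ℝ => 6 * t) (𝓝 0) (𝓝 (6 * 0)) :=
      (continuous_const.mul continuous_id).tendsto 0
    rw [mul_zero] at this
    exact this.mono_left nhdsWithin_le_nhds
  refine tendsto_of_tendsto_of_tendsto_of_le_of_le' tendsto_const_nhds hup ?_ ?_
  · filter_upwards [hev] with t ht
    rw [slope_def_field, sd_zero]
    simp only [sub_zero]
    exact div_nonneg (sd_nonneg t) ht.1.le
  · filter_upwards [hev] with t ht
    rw [slope_def_field, sd_zero]
    simp only [sub_zero]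
    rw [div_le_iff₀ ht.1]
    have := sd_le ht.1.le ht.2
    nlinarith

lemma sd_hasDerivAt {t : ℝ} (ht : 0 < t) :
    HasDerivAt superDelay (Real.exp (t ^ 2 - 1 / t) * (2 * t + 1 / t ^ 2)) t := by
  have h1 : HasDerivAt (fun x : ℝ => Real.exp (x ^ 2 - 1 / x))
      (Real.exp (t ^ 2 - 1 / t) * (2 * t + 1 / t ^ 2)) t := by
    apply HasDerivAt.exp
    have h2 : HasDerivAt (fun x : ℝ => x ^ 2) (2 * t) t := by
      simpa using hasDerivAt_pow 2 t
    have h3 : HasDerivAt (fun x : ℝ => 1 / x) (-(1 / t ^ 2)) t := by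
      have := hasDerivAt_inv ht.ne'
      simpa [one_div] using this
    have h4 := h2.fun_sub h3
    rw [sub_neg_eq_add] at h4
    exact h4
  refine h1.congr_of_eventuallyEq ?_
  filter_upwards [Ioi_mem_nhds ht] with x hx
  exact sd_pos hx

lemma sd_hasDerivAt2 {t : ℝ} (ht : 0 < t) :
    HasDerivAt (fun x : ℝ => Real.exp (x ^ 2 - 1 / x) * (2 * x + 1 / x ^ 2))
      (Real.exp (t ^ 2 - 1 / t) * (2 * t + 1 / t ^ 2) * (2 * t + 1 / t ^ 2)
        + Real.exp (t ^ 2 - 1 / t) * (2 - 2 / t ^ 3)) t := by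
  have h1 : HasDerivAt (fun x : ℝ => Real.exp (x ^ 2 - 1 / x))
      (Real.exp (t ^ 2 - 1 / t) * (2 * t + 1 / t ^ 2)) t := by
    apply HasDerivAt.exp
    have h2 : HasDerivAt (fun x : ℝ => x ^ 2) (2 * t) t := by
      simpa using hasDerivAt_pow 2 t
    have h3 : HasDerivAt (fun x : ℝ => 1 / x) (-(1 / t ^ 2)) t := by
      have := hasDerivAt_inv ht.ne'
      simpa [one_div] using this
    have h4 := h2.fun_sub h3
    rw [sub_neg_eq_add] at h4
    exact h4
  refine h1.mul ?_
  have h4 : HasDerivAt (fun x : ℝ => 2 * x) 2 t := by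
    simpa using (hasDerivAt_id t).const_mul 2
  have h5 : HasDerivAt (fun x : ℝ => 1 / x ^ 2) (-(2 / t ^ 3)) t := by
    have h6 : HasDerivAt (fun x : ℝ => x ^ 2) (2 * t) t := by
      simpa using hasDerivAt_pow 2 t
    have h7 := h6.fun_inv (pow_ne_zero 2 ht.ne')
    have h8 : -(2 * t) / (t ^ 2) ^ 2 = -(2 / t ^ 3) := by
      field_simp
    rw [h8] at h7
    simpa [one_div] using h7
  have h9 := h4.fun_add h5
  rw [← sub_eq_add_neg] at h9
  exact h9

lemma sd_continuousOn : ContinuousOn superDelay (Set.Ici 0) := by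
  intro t ht
  rcases eq_or_lt_of_le (show (0 : ℝ) ≤ t from ht) with h0 | h0
  · rw [← h0]; exact sd_deriv_zero.continuousWithinAt
  · exact (sd_hasDerivAt h0).continuousAt.continuousWithinAt

lemma sd_convex : ConvexOn ℝ (Set.Ici 0) superDelay := by
  refine convexOn_of_hasDerivWithinAt2_nonneg (convex_Ici 0) sd_continuousOn
    (f' := fun x => Real.exp (x ^ 2 - 1 / x) * (2 * x + 1 / x ^ 2))
    (f'' := fun t => Real.exp (t ^ 2 - 1 / t) * (2 * t + 1 / t ^ 2) * (2 * t + 1 / t ^ 2)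
        + Real.exp (t ^ 2 - 1 / t) * (2 - 2 / t ^ 3)) ?_ ?_ ?_
  · intro x hx
    rw [interior_Ici] at hx
    exact (sd_hasDerivAt hx).hasDerivWithinAt
  · intro x hx
    rw [interior_Ici] at hx
    exact (sd_hasDerivAt2 hx).hasDerivWithinAt
  · intro x hx
    rw [interior_Ici] at hx
    have hx0 : 0 < x := hx
    have key : 0 ≤ (2 * x + 1 / x ^ 2) * (2 * x + 1 / x ^ 2) + (2 - 2 / x ^ 3) := by
      have e : (2 * x + 1 / x ^ 2) * (2 * x + 1 / x ^ 2) + (2 - 2 / x ^ 3)
          = 4 * x ^ 2 + 4 * (1 / x) + ((1 / x) ^ 4 - 2 * (1 / x) ^ 3 + 2) := by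
        field_simp
        ring
      rw [e]
      have hu : 0 < 1 / x := by positivity
      generalize 1 / x = u at hu
      have h1 : 0 ≤ u ^ 4 - 2 * u ^ 3 + 2 := by
        nlinarith [sq_nonneg (u ^ 2 - u - 1), sq_nonneg (u ^ 2 - u - 1 / 2), sq_nonneg (u - 1),
          sq_nonneg (u - 3 / 2), sq_nonneg (u ^ 2 - u - 3 / 4)]
      positivity
    have := mul_nonneg (Real.exp_pos (x ^ 2 - 1 / x)).le key
    calc (0 : ℝ) ≤ _ := this
      _ = _ := by ring

lemma sd_ge {t : ℝ} (ht : 1 ≤ t) : t ≤ superDelay t := by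
  have h0 : 0 < t := by linarith
  rw [sd_pos h0]
  have h1 := Real.add_one_le_exp (t ^ 2 - 1 / t)
  have h2 : 1 / t ≤ 1 := by rw [div_le_one h0]; exact ht
  nlinarith

lemma isDelayFunction_superDelay : IsDelayFunction superDelay where
  nonneg := fun t _ => sd_nonneg t
  convex := sd_convex
  mono := sd_mono
  continuous := sd_continuousOn
  unbounded := by
    intro M
    refine ⟨max 1 (M + 1), by positivity, ?_⟩
    have h1 := sd_ge (le_max_left 1 (M + 1))
    have h2 := le_max_right 1 (M + 1)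
    linarith
  zero := sd_zero
  deriv_zero := sd_deriv_zero

/-- Fast relative growth near `0`. -/
lemma sd_small (K D : ℝ) (hD : 0 < D) :
    ∃ u, 0 < u ∧ superDelay (5 * u) ≤ D ∧ K * superDelay (4 * u) < superDelay (5 * u) := by
  obtain ⟨L, hL1, hLK⟩ : ∃ L : ℝ, 1 ≤ L ∧ K ≤ L := ⟨max 1 K, le_max_left _ _, le_max_right _ _⟩
  have hL0 : 0 < L := by linarith
  refine ⟨min (1 / 5) (min (1 / (20 * L)) (D / 150)), by positivity, ?_, ?_⟩
  · set u := min (1 / 5 : ℝ) (min (1 / (20 * L)) (D / 150)) with hu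
    have hu0 : 0 < u := by positivity
    have h1 : u ≤ 1 / 5 := min_le_left _ _
    have h2 : u ≤ D / 150 := (min_le_right _ _).trans (min_le_right _ _)
    have h3 := sd_le (t := 5 * u) (by positivity) (by linarith)
    nlinarith
  · set u := min (1 / 5 : ℝ) (min (1 / (20 * L)) (D / 150)) with hu
    have hu0 : 0 < u := by positivity
    have h2 : u ≤ 1 / (20 * L) := (min_le_right _ _).trans (min_le_left _ _)
    have h4 : 0 < 4 * u := by positivity
    have h5 : 0 < 5 * u := by positivity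
    have e : superDelay (5 * u) = Real.exp (9 * u ^ 2 + 1 / (20 * u)) * superDelay (4 * u) := by
      rw [sd_pos h4, sd_pos h5, ← Real.exp_add]
      congr 1
      field_simp
      ring
    have hpos : 0 < superDelay (4 * u) := by rw [sd_pos h4]; exact Real.exp_pos _
    have h6 : L < Real.exp (9 * u ^ 2 + 1 / (20 * u)) := by
      have h7 := Real.add_one_le_exp (9 * u ^ 2 + 1 / (20 * u))
      have h8 : L ≤ 1 / (20 * u) := by
        rw [le_div_iff₀ (by positivity)]
        rw [le_div_iff₀ (by positivity)] at h2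
        linarith
      have h9 : 0 ≤ 9 * u ^ 2 := by positivity
      linarith
    rw [e]
    exact mul_lt_mul_of_pos_right (lt_of_le_of_lt hLK h6) hpos

/-- Fast relative growth at infinity. -/
lemma sd_large (K u : ℝ) (hu : 0 < u) :
    ∃ s, u ≤ s ∧ K * (1 + superDelay s) < superDelay (u + s) := by
  obtain ⟨L, hL1, hLK⟩ : ∃ L : ℝ, 1 ≤ L ∧ K ≤ L := ⟨max 1 K, le_max_left _ _, le_max_right _ _⟩
  have hL0 : 0 < L := by linarith
  refine ⟨max (max 1 u) (L / u), (le_max_right 1 u).trans (le_max_left _ _), ?_⟩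
  set s := max (max 1 u) (L / u) with hs
  have h1 : 1 ≤ s := (le_max_left 1 u).trans (le_max_left _ _)
  have h2 : L / u ≤ s := le_max_right _ _
  have hs0 : 0 < s := by linarith
  have hus : 0 < u + s := by positivity
  have h3 : L ≤ u * s := by
    rw [div_le_iff₀ hu] at h2; linarith
  have hfs := sd_ge h1
  have hfs0 : 0 < superDelay s := by linarith
  have h4 : (1 + 2 * L) * superDelay s ≤ superDelay (u + s) := by
    have e : superDelay (u + s)
        = Real.exp (2 * (u * s) + u ^ 2 + (1 / s - 1 / (u + s))) * superDelay s := by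
      rw [sd_pos hs0, sd_pos hus, ← Real.exp_add]
      congr 1
      ring
    rw [e]
    apply mul_le_mul_of_nonneg_right _ hfs0.le
    have h5 := Real.add_one_le_exp (2 * (u * s) + u ^ 2 + (1 / s - 1 / (u + s)))
    have h6 : 1 / (u + s) ≤ 1 / s := one_div_le_one_div_of_le hs0 (by linarith)
    have h7 : 0 ≤ u ^ 2 := by positivity
    linarith
  have h8 : K * (1 + superDelay s) ≤ L * (1 + superDelay s) :=
    mul_le_mul_of_nonneg_right hLK (by linarith)
  nlinarith

end Helper42_MCD
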