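import Pool.Agent.Helper42_MCD.Seqs
import Pool.Agent.Helper42_MCD.Fun

/-!
# No randomized algorithm has a finite competitive ratio for a delay function of fast growth
-/

open MeasureTheory

namespace Helper42_MCD

section lower

variable {n : ℕ} {f : ℝ → ℝ} {D : ℝ} {σ : RequestSeq n}

/-- The part of the cost attributed to the request `k`. -/
noncomputable def share (f : ℝ → ℝ) (D : ℝ) (S : Schedule σ) (k : Fin σ.size) : ℝ :=
  f (S.time k - σ.arrival k)
    + if k < S.partner k then udist D (σ.loc k) (σ.loc (S.partner k)) else 0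

lemma cost_eq (S : Schedule σ) : S.cost f D = ∑ k, share f D S k := by
  unfold Schedule.cost share; rw [Finset.sum_add_distrib]

lemma share_nonneg (hf : IsDelayFunction f) (hD : 0 ≤ D) (S : Schedule σ) (k : Fin σ.size) :
    0 ≤ share f D S k := by
  unfold share
  apply add_nonneg
  · apply hf.nonneg
    have := S.arrived k
    linarith
  · split_ifs
    · exact udist_nonneg hD _ _
    · exact le_rfl

lemma share_ge (hD : 0 ≤ D) (S : Schedule σ) (k : Fin σ.size) :
    f (S.time k - σ.arrival k) ≤ share f D S k := by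
  unfold share
  have : 0 ≤ (if k < S.partner k then udist D (σ.loc k) (σ.loc (S.partner k)) else 0) := by
    split_ifs
    · exact udist_nonneg hD _ _
    · exact le_rfl
  linarith

/-- The full cost of the pair which contains the request `k`. -/
noncomputable def pairCost (f : ℝ → ℝ) (D : ℝ) (S : Schedule σ) (k : Fin σ.size) : ℝ :=
  f (S.time k - σ.arrival k) + f (S.time (S.partner k) - σ.arrival (S.partner k))
    + udist D (σ.loc k) (σ.loc (S.partner k))

lemma udist_comm (x y : Fin n) : udist D x y = udist D y x := by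
  unfold udist
  by_cases h : x = y
  · rw [if_pos h, if_pos h.symm]
  · rw [if_neg h, if_neg (fun h' => h h'.symm)]

lemma share_add (S : Schedule σ) (k : Fin σ.size) :
    share f D S k + share f D S (S.partner k) = pairCost f D S k := by
  unfold share pairCost
  rw [S.partner_partner]
  rcases lt_or_gt_of_ne (S.partner_ne k) with h | h
  · rw [if_neg (not_lt.mpr h.le), if_pos h, udist_comm (σ.loc (S.partner k))]
    ring
  · rw [if_pos h, if_neg (not_lt.mpr (le_of_lt h))]
    ring

lemma two_cost (S : Schedule σ) : 2 * S.cost f D = ∑ k, pairCost f D S k := by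
  have h1 : ∑ k, share f D S (S.partner k) = ∑ k, share f D S k := by
    have hinv : Function.Involutive S.partner := S.partner_partner
    exact Equiv.sum_comp hinv.toPerm (fun k => share f D S k)
  have h2 : ∑ k, pairCost f D S k = ∑ k, share f D S k + ∑ k, share f D S (S.partner k) := by
    rw [← Finset.sum_add_distrib]
    exact Finset.sum_congr rfl fun k _ => (share_add S k).symm
  rw [h2, h1, cost_eq]
  ring

lemma pairCost_nonneg (hf : IsDelayFunction f) (hD : 0 ≤ D) (S : Schedule σ)
    (k : Fin σ.size) : 0 ≤ pairCost f D S k := by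
  rw [← share_add]
  exact add_nonneg (share_nonneg hf hD S k) (share_nonneg hf hD S _)

end lower

section adversary

variable {n : ℕ} {f : ℝ → ℝ} {D : ℝ}

/-- The index of the first request of block `i`. -/
def fst {hn : 2 ≤ n} {u : ℝ} {hu : 0 < u} {N : ℕ} (i : Fin N) :
    Fin (seqA hn u hu N).size :=
  ⟨4 * (i : ℕ), by show 4 * (i : ℕ) < 4 * N; have := i.2; omega⟩

/-- The first and the third request of block `i` are matched with each other before the fourth
one arrives. -/
def Early {hn : 2 ≤ n} {u : ℝ} {hu : 0 < u} {N : ℕ} (S : Schedule (seqA hn u hu N))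
    (i : Fin N) : Prop :=
  ((S.partner (fst i) : Fin _) : ℕ) = 4 * (i : ℕ) + 2 ∧ S.time (fst i) < u * (10 * (i : ℕ) + 5)

lemma pairCost_ge (hf : IsDelayFunction f) (hn : 2 ≤ n) (u : ℝ) (hu : 0 < u) (hD : 0 ≤ D)
    (hfD : f (5 * u) ≤ D) {N : ℕ} (S : Schedule (seqA hn u hu N)) (i : Fin N)
    (h : ¬ Early S i) : f (5 * u) ≤ pairCost f D S (fst i) := by
  have h5 : (0 : ℝ) ≤ 5 * u := by positivity
  set j := S.partner (fst i) with hj
  have hjne : (j : ℕ) ≠ 4 * (i : ℕ) := by
    intro h'
    exact S.partner_ne (fst i) (Fin.ext h')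
  have hj2 : (j : ℕ) < 4 * N := j.2
  have ha : (seqA hn u hu N).arrival (fst i) = u * (10 * (i : ℕ)) := by
    show u * (slot (4 * (i : ℕ)) : ℝ) = _
    rw [slot_block0]; push_cast; ring
  have hja : (seqA hn u hu N).arrival j = u * (slot (j : ℕ) : ℝ) := rfl
  have ht : S.time j = S.time (fst i) := S.time_partner (fst i)
  have hA1 := S.arrived (fst i)
  have hA2 := S.arrived j
  have hd1 : 0 ≤ f (S.time (fst i) - (seqA hn u hu N).arrival (fst i)) :=
    hf.nonneg _ (by linarith)
  have hd2 : 0 ≤ f (S.time j - (seqA hn u hu N).arrival j) := hf.nonneg _ (by linarith)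
  have hdd : 0 ≤ udist D ((seqA hn u hu N).loc (fst i)) ((seqA hn u hu N).loc j) :=
    udist_nonneg hD _ _
  have key1 : 5 * u ≤ S.time (fst i) - (seqA hn u hu N).arrival (fst i) →
      f (5 * u) ≤ pairCost f D S (fst i) := by
    intro h'
    have := hf.mono (show (0 : ℝ) ≤ 5 * u from h5) (show (0 : ℝ) ≤ _ by linarith) h'
    unfold pairCost
    rw [← hj]
    linarith
  have key2 : 5 * u ≤ S.time j - (seqA hn u hu N).arrival j →
      f (5 * u) ≤ pairCost f D S (fst i) := by
    intro h'
    have := hf.mono (show (0 : ℝ) ≤ 5 * u from h5) (show (0 : ℝ) ≤ _ by linarith) h'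
    unfold pairCost
    rw [← hj]
    linarith
  by_cases hpar : (j : ℕ) % 2 = 0
  · by_cases hj3 : (j : ℕ) = 4 * (i : ℕ) + 2
    · apply key1
      have : ¬ (S.time (fst i) < u * (10 * (i : ℕ) + 5)) := fun h' => h ⟨hj3, h'⟩
      rw [ha]
      push Not at this
      linarith
    · rcases lt_or_gt_of_ne hjne with hlt | hgt
      · -- an earlier block
        apply key2
        have h1 : slot (j : ℕ) + 5 ≤ 10 * (i : ℕ) := by
          unfold slot; split_ifs <;> omega
        have h2 : (slot (j : ℕ) : ℝ) + 5 ≤ 10 * (i : ℕ) := by exact_mod_cast h1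
        have h3 := mul_le_mul_of_nonneg_left h2 hu.le
        rw [ht, hja]
        rw [ha] at hA1
        linarith
      · -- a later block
        apply key1
        have h1 : 10 * (i : ℕ) + 5 ≤ slot (j : ℕ) := by
          unfold slot; split_ifs <;> omega
        have h2 : 10 * ((i : ℕ) : ℝ) + 5 ≤ (slot (j : ℕ) : ℝ) := by exact_mod_cast h1
        have h3 := mul_le_mul_of_nonneg_left h2 hu.le
        rw [ht, hja] at hA2
        rw [ha]
        linarith
  · -- different locations
    have hl : (seqA hn u hu N).loc (fst i) ≠ (seqA hn u hu N).loc j := by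
      show place hn (4 * (i : ℕ)) ≠ place hn j
      apply place_ne
      omega
    have hud : udist D ((seqA hn u hu N).loc (fst i)) ((seqA hn u hu N).loc j) = D := by
      unfold udist; rw [if_neg hl]
    unfold pairCost
    rw [← hj, hud]
    linarith

lemma cost_ge_A (hf : IsDelayFunction f) (hn : 2 ≤ n) (u : ℝ) (hu : 0 < u) (hD : 0 ≤ D)
    (hfD : f (5 * u) ≤ D) {N : ℕ} (S : Schedule (seqA hn u hu N)) (g : Fin N → ℝ)
    (hg : ∀ i, g i ≤ f (5 * u)) (hg0 : ∀ i, Early S i → g i ≤ 0) :
    ∑ i, g i ≤ 2 * S.cost f D := by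
  rw [two_cost]
  have hinj : Function.Injective (fst : Fin N → Fin (seqA hn u hu N).size) := by
    intro a b hab
    have h := congrArg Fin.val hab
    apply Fin.ext
    have h' : 4 * (a : ℕ) = 4 * (b : ℕ) := h
    omega
  calc ∑ i, g i ≤ ∑ i, pairCost f D S (fst i) := by
        apply Finset.sum_le_sum
        intro i _
        by_cases he : Early S i
        · exact (hg0 i he).trans (pairCost_nonneg hf hD S _)
        · exact (hg i).trans (pairCost_ge hf hn u hu hD hfD S i he)
    _ = ∑ k ∈ Finset.univ.image (fst : Fin N → Fin (seqA hn u hu N).size),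
          pairCost f D S k := by
        rw [Finset.sum_image (fun a _ b _ h => hinj h)]
    _ ≤ ∑ k, pairCost f D S k := by
        apply Finset.sum_le_univ_sum_of_nonneg
        intro k
        exact pairCost_nonneg hf hD S k

lemma cost_ge_B (hf : IsDelayFunction f) (hn : 2 ≤ n) (u s : ℝ) (hu : 0 < u) (hs : 0 ≤ s)
    (hD : 0 ≤ D) {i : ℕ} (S : Schedule (seqB hn u s hu hs i))
    (a : Fin (seqB hn u s hu hs i).size) (ha : (a : ℕ) = 4 * i)
    (h : ((S.partner a : Fin _) : ℕ) = 4 * i + 2) : f (u + s) ≤ S.cost f D := by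
  set d : Fin (seqB hn u s hu hs i).size :=
    ⟨4 * i + 3, by show 4 * i + 3 < 4 * i + 4; omega⟩ with hd
  set x := S.partner d with hx
  have hxd : (x : ℕ) ≠ 4 * i + 3 := by
    intro h'
    exact S.partner_ne d (Fin.ext h')
  have hpx : S.partner x = d := S.partner_partner d
  have hx0 : (x : ℕ) ≠ 4 * i := by
    intro h'
    have hxa : x = a := Fin.ext (by rw [h', ha])
    rw [← hxa, hpx] at h
    have : 4 * i + 3 = 4 * i + 2 := h
    omega
  have hx2 : (x : ℕ) ≠ 4 * i + 2 := by
    intro h'
    have h1 : x = S.partner a := Fin.ext (by rw [h', h])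
    have h2 : S.partner x = a := by rw [h1]; exact S.partner_partner a
    rw [hpx] at h2
    have h3 : 4 * i + 3 = (a : ℕ) := congrArg Fin.val h2
    omega
  have hxlt : (x : ℕ) < 4 * i + 4 := x.2
  have hx1 : (x : ℕ) ≤ 4 * i + 1 := by omega
  have hax : (seqB hn u s hu hs i).arrival x ≤ u * (10 * i + 3) := by
    show arrB u s i x ≤ _
    rw [arrB_lt (by omega)]
    have h1 : slot (x : ℕ) ≤ slot (4 * i + 1) := slot_mono hx1
    rw [slot_block1] at h1
    have h2 : (slot (x : ℕ) : ℝ) ≤ 10 * i + 3 := by exact_mod_cast h1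
    exact mul_le_mul_of_nonneg_left h2 hu.le
  have hdd : u * (10 * i + 4) + s ≤ S.time d := by
    have h1 := S.arrived d
    have h2 : (seqB hn u s hu hs i).arrival d = u * (10 * i + 4) + s := arrB_last
    linarith
  have htx : S.time x = S.time d := S.time_partner d
  have h3 : u + s ≤ S.time x - (seqB hn u s hu hs i).arrival x := by
    rw [htx]; linarith
  have h4 : f (u + s) ≤ share f D S x := by
    refine le_trans ?_ (share_ge hD S x)
    have h0 : (0 : ℝ) ≤ u + s := by positivity
    exact hf.mono h0 (h0.trans h3) h3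
  rw [cost_eq]
  exact h4.trans (Finset.single_le_sum (f := fun k => share f D S k)
    (fun k _ => share_nonneg hf hD S k) (Finset.mem_univ x))

lemma sameUpTo_AB (hn : 2 ≤ n) (u s t : ℝ) (hu : 0 < u) (hs : 0 ≤ s) (hus : u ≤ s) {N : ℕ}
    (i : Fin N) (ht : t < u * (10 * (i : ℕ) + 5)) :
    SameUpTo (seqA hn u hu N) (seqB hn u s hu hs i) t := by
  have hiN : (i : ℕ) < N := i.2
  constructor
  · intro k hk
    have hk' : u * (slot (k : ℕ) : ℝ) ≤ t := hk
    have h1 : u * (slot (k : ℕ) : ℝ) < u * (10 * (i : ℕ) + 5) := lt_of_le_of_lt hk' ht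
    have h2 : (slot (k : ℕ) : ℝ) < 10 * (i : ℕ) + 5 := lt_of_mul_lt_mul_left h1 hu.le
    have h3 : slot (k : ℕ) < 10 * (i : ℕ) + 5 := by exact_mod_cast h2
    have h4 : (k : ℕ) < 4 * (i : ℕ) + 3 := by
      by_contra hcon
      push Not at hcon
      have := slot_mono hcon
      rw [slot_block3] at this
      omega
    refine ⟨⟨k, by show (k : ℕ) < 4 * (i : ℕ) + 4; omega⟩, rfl, ?_, rfl⟩
    show arrB u s i k = u * (slot (k : ℕ) : ℝ)
    exact arrB_lt h4
  · intro k hk
    have hk' : arrB u s i k ≤ t := hk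
    have hklt : (k : ℕ) < 4 * (i : ℕ) + 4 := k.2
    have h4 : (k : ℕ) < 4 * (i : ℕ) + 3 := by
      by_contra hcon
      have h5 : (k : ℕ) = 4 * (i : ℕ) + 3 := by omega
      rw [h5, arrB_last] at hk'
      have h6 : u * (10 * ((i : ℕ) : ℝ) + 5) = u * (10 * (i : ℕ) + 4) + u := by ring
      linarith
    refine ⟨⟨k, by show (k : ℕ) < 4 * N; omega⟩, rfl, ?_, rfl⟩
    show u * (slot (k : ℕ) : ℝ) = arrB u s i k
    exact (arrB_lt h4).symm

/-- If the first and the third request of block `i` are matched early on the regular sequence,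
then the cost is large on the sequence in which the fourth request of block `i` is late. -/
lemma early_cost (hf : IsDelayFunction f) (hn : 2 ≤ n) (u s : ℝ) (hu : 0 < u) (hs : 0 ≤ s)
    (hus : u ≤ s) (hD : 0 ≤ D) {N : ℕ} (i : Fin N) (A : OnlineAlg n)
    (h : Early (A.run (seqA hn u hu N)) i) :
    f (u + s) ≤ (A.run (seqB hn u s hu hs i)).cost f D := by
  obtain ⟨h1, h2⟩ := h
  have hsame := sameUpTo_AB hn u s _ hu hs hus i h2
  have hon := A.online _ _ _ hsame (fst i)
    ⟨4 * (i : ℕ), by show 4 * (i : ℕ) < 4 * (i : ℕ) + 4; omega⟩ rfl le_rfl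
  refine cost_ge_B hf hn u s hu hs hD (A.run (seqB hn u s hu hs i))
    ⟨4 * (i : ℕ), by show 4 * (i : ℕ) < 4 * (i : ℕ) + 4; omega⟩ rfl ?_
  rw [hon.2]
  exact h1

end adversary

/-- For a delay function which grows fast both near `0` and near infinity, no randomized online
algorithm on `n ≥ 2` points has a finite competitive ratio. -/
theorem not_competitive {n : ℕ} {f : ℝ → ℝ} {D : ℝ} (hf : IsDelayFunction f)
    (hsmall : ∀ K : ℝ, ∃ u, 0 < u ∧ f (5 * u) ≤ D ∧ K * f (4 * u) < f (5 * u))
    (hlarge : ∀ K u : ℝ, 0 < u → ∃ s, u ≤ s ∧ K * (1 + f s) < f (u + s))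
    (hD : 0 < D) (hn : 2 ≤ n) {Ω : Type*} [MeasurableSpace Ω] (μ : Measure Ω)
    [IsProbabilityMeasure μ] (A : RandomizedAlg n f D Ω) (c : ℝ) : ¬ A.Competitive μ c := by
  rintro ⟨B, hB⟩
  obtain ⟨u, hu, hfD, hratio⟩ := hsmall (16 * |c|)
  have hf4 : 0 ≤ f (4 * u) := hf.nonneg _ (by positivity)
  have hf5 : 0 ≤ f (5 * u) := hf.nonneg _ (by positivity)
  set m := f (5 * u) with hm
  obtain ⟨N, hN⟩ := exists_nat_gt (|B| / (m / 4 - 4 * |c| * f (4 * u)))
  have heps : 0 < m / 4 - 4 * |c| * f (4 * u) := by linarith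
  have hN' : |B| < N * (m / 4 - 4 * |c| * f (4 * u)) := by
    rwa [div_lt_iff₀ heps] at hN
  have hBabs : B ≤ |B| := le_abs_self B
  have hcabs : c ≤ |c| := le_abs_self c
  have hc0 : 0 ≤ |c| := abs_nonneg c
  have hopt_nonneg : ∀ σ : RequestSeq n, 0 ≤ opt f D σ := by
    intro σ
    apply Real.sInf_nonneg
    rintro _ ⟨S, rfl⟩
    exact cost_nonneg hf hD.le S
  by_cases hcase : ∃ i : Fin N,
      (1 / 2 : ENNReal) ≤ μ {ω | Early ((A.alg ω).run (seqA hn u hu N)) i}
  · obtain ⟨i, hi⟩ := hcase
    set K0 : ℝ := (4 * ((i : ℕ) : ℝ) + 4) * (f (4 * u) + D) with hK0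
    have hK0nn : 0 ≤ K0 := by positivity
    obtain ⟨s, hus, hs⟩ := hlarge (2 * (|c| * K0 + |c| + |B|)) u hu
    have hs0 : 0 ≤ s := hu.le.trans hus
    have hfs : 0 ≤ f s := hf.nonneg s hs0
    have hopt := opt_seqB hf hD.le hn u s hu hs0 (i : ℕ)
    rw [← hK0] at hopt
    have hup : c * opt f D (seqB hn u s hu hs0 i) + B < f (u + s) / 2 := by
      have h1 : c * opt f D (seqB hn u s hu hs0 i) ≤ |c| * (K0 + f s) :=
        (mul_le_mul_of_nonneg_right hcabs (hopt_nonneg _)).trans
          (mul_le_mul_of_nonneg_left hopt hc0)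
      have h2 : 0 ≤ |B| * f s := by positivity
      have h3 : 0 ≤ |c| * K0 * f s := by positivity
      nlinarith
    have hpos : 0 < f (u + s) / 2 := by
      have h2 : 0 ≤ 2 * (|c| * K0 + |c| + |B|) * (1 + f s) := by positivity
      linarith
    have hmeas : Measurable fun ω =>
        ENNReal.ofReal (((A.alg ω).run (seqB hn u s hu hs0 i)).cost f D) :=
      (A.measurable_cost _).ennreal_ofReal
    have hmk := mul_meas_ge_le_lintegral (μ := μ) hmeas (ENNReal.ofReal (f (u + s)))
    have hsub : {ω | Early ((A.alg ω).run (seqA hn u hu N)) i} ⊆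
        {ω | ENNReal.ofReal (f (u + s))
          ≤ ENNReal.ofReal (((A.alg ω).run (seqB hn u s hu hs0 i)).cost f D)} := by
      intro ω hω
      exact ENNReal.ofReal_le_ofReal (early_cost hf hn u s hu hs0 hus hD.le i (A.alg ω) hω)
    have hlow : ENNReal.ofReal (f (u + s) / 2) ≤ A.expectedCost μ (seqB hn u s hu hs0 i) := by
      calc ENNReal.ofReal (f (u + s) / 2)
          = ENNReal.ofReal (f (u + s)) * (1 / 2) := by
            rw [ENNReal.ofReal_div_of_pos (by norm_num : (0 : ℝ) < 2)]
            simp [div_eq_mul_inv]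
        _ ≤ ENNReal.ofReal (f (u + s)) *
              μ {ω | Early ((A.alg ω).run (seqA hn u hu N)) i} := by gcongr
        _ ≤ ENNReal.ofReal (f (u + s)) * μ {ω | ENNReal.ofReal (f (u + s))
              ≤ ENNReal.ofReal (((A.alg ω).run (seqB hn u s hu hs0 i)).cost f D)} := by
            gcongr
        _ ≤ _ := hmk
    have hfin := hlow.trans (hB (seqB hn u s hu hs0 i))
    have hlt := (ENNReal.ofReal_lt_ofReal_iff hpos).mpr hup
    exact absurd hfin (not_le.mpr hlt)
  · push Not at hcase
    have hopt := opt_seqA hf hD.le hn u hu N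
    have hup : c * opt f D (seqA hn u hu N) + B < N * (m / 4) := by
      have h1 : c * opt f D (seqA hn u hu N) ≤ |c| * (N * (4 * f (4 * u))) :=
        (mul_le_mul_of_nonneg_right hcabs (hopt_nonneg _)).trans
          (mul_le_mul_of_nonneg_left hopt hc0)
      nlinarith
    have hNpos : 0 < (N : ℝ) := by
      by_contra hcon
      have : (N : ℝ) = 0 := le_antisymm (not_lt.mp hcon) (Nat.cast_nonneg N)
      rw [this, zero_mul] at hN'
      exact absurd hN' (not_lt.mpr (abs_nonneg B))
    have hmpos : 0 < m := by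
      have : 0 ≤ 16 * |c| * f (4 * u) := by positivity
      linarith
    have hpos : 0 < N * (m / 4) := by positivity
    set E : Fin N → Set Ω := fun i => {ω | Early ((A.alg ω).run (seqA hn u hu N)) i} with hE
    set H : Fin N → Set Ω := fun i => toMeasurable μ (E i) with hH
    have hHmeas : ∀ i, MeasurableSet (H i) := fun i => measurableSet_toMeasurable μ (E i)
    have hHc : ∀ i, (1 / 2 : ENNReal) ≤ μ (H i)ᶜ := by
      intro i
      rw [prob_compl_eq_one_sub (hHmeas i)]
      have h1 : μ (H i) = μ (E i) := measure_toMeasurable (E i)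
      rw [h1]
      have h2 : μ (E i) ≤ 1 / 2 := (hcase i).le
      have h3 : (1 : ENNReal) - 1 / 2 ≤ 1 - μ (E i) := tsub_le_tsub_left h2 1
      have h4 : (1 : ENNReal) - 1 / 2 = 1 / 2 := by
        rw [one_div]; exact ENNReal.one_sub_inv_two
      rw [h4] at h3
      exact h3
    have hpt : ∀ ω, ∑ i, (H i)ᶜ.indicator (fun _ => ENNReal.ofReal (m / 2)) ω
        ≤ ENNReal.ofReal (((A.alg ω).run (seqA hn u hu N)).cost f D) := by
      intro ω
      have h1 : ∑ i, (H i)ᶜ.indicator (fun _ => ENNReal.ofReal (m / 2)) ω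
          = ENNReal.ofReal (∑ i, (H i)ᶜ.indicator (fun _ => m / 2) ω) := by
        rw [ENNReal.ofReal_sum_of_nonneg]
        · apply Finset.sum_congr rfl
          intro i _
          by_cases hi : ω ∈ (H i)ᶜ
          · rw [Set.indicator_of_mem hi, Set.indicator_of_mem hi]
          · rw [Set.indicator_of_notMem hi, Set.indicator_of_notMem hi, ENNReal.ofReal_zero]
        · intro i _
          apply Set.indicator_nonneg
          intro _ _
          positivity
      rw [h1]
      apply ENNReal.ofReal_le_ofReal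
      have h2 := cost_ge_A hf hn u hu hD.le hfD ((A.alg ω).run (seqA hn u hu N))
        (fun i => 2 * (H i)ᶜ.indicator (fun _ => m / 2) ω)
        (by
          intro i
          by_cases hi : ω ∈ (H i)ᶜ
          · simp only [Set.indicator_of_mem hi]; linarith
          · simp only [Set.indicator_of_notMem hi]; linarith)
        (by
          intro i hi
          have h3 : ω ∈ H i := subset_toMeasurable μ (E i) hi
          have h4 : ω ∉ (H i)ᶜ := fun h => h h3
          simp only [Set.indicator_of_notMem h4]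
          norm_num)
      rw [← Finset.mul_sum] at h2
      linarith
    have hlow : ENNReal.ofReal (N * (m / 4)) ≤ A.expectedCost μ (seqA hn u hu N) := by
      calc ENNReal.ofReal (N * (m / 4))
          = ∑ _i : Fin N, ENNReal.ofReal (m / 2) * (1 / 2) := by
            rw [Finset.sum_const, Finset.card_univ, Fintype.card_fin, nsmul_eq_mul,
              ENNReal.ofReal_mul (Nat.cast_nonneg N), ENNReal.ofReal_natCast]
            congr 1
            have : m / 4 = (m / 2) / 2 := by ring
            rw [this, ENNReal.ofReal_div_of_pos (by norm_num : (0 : ℝ) < 2)]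
            simp [div_eq_mul_inv]
        _ ≤ ∑ i : Fin N, ENNReal.ofReal (m / 2) * μ (H i)ᶜ := by
            apply Finset.sum_le_sum
            intro i _
            gcongr
            exact hHc i
        _ = ∑ i : Fin N, ∫⁻ ω, (H i)ᶜ.indicator (fun _ => ENNReal.ofReal (m / 2)) ω ∂μ := by
            apply Finset.sum_congr rfl
            intro i _
            rw [lintegral_indicator_const (hHmeas i).compl]
        _ = ∫⁻ ω, ∑ i, (H i)ᶜ.indicator (fun _ => ENNReal.ofReal (m / 2)) ω ∂μ := by
            rw [lintegral_finsetSum]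
            intro i _
            exact measurable_const.indicator (hHmeas i).compl
        _ ≤ ∫⁻ ω, ENNReal.ofReal (((A.alg ω).run (seqA hn u hu N)).cost f D) ∂μ :=
            lintegral_mono hpt
    have hfin := hlow.trans (hB (seqA hn u hu N))
    have hlt := (ENNReal.ofReal_lt_ofReal_iff hpos).mpr hup
    exact absurd hfin (not_le.mpr hlt)

end Helper42_MCD
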