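import Pool.Agent.Helper42_MCD.Defs

/-!
# The request sequences of the adversary and the cost estimates
-/

namespace Helper42_MCD

/-- Arrival slots: block `i` has its requests at the slots `10 i`, `10 i + 3`, `10 i + 4`,
`10 i + 5`. -/
def slot (k : ℕ) : ℕ := 10 * (k / 4) + (if k % 4 = 0 then 0 else k % 4 + 2)

lemma slot_mono {k l : ℕ} (h : k ≤ l) : slot k ≤ slot l := by
  unfold slot; split_ifs <;> omega

/-- The location of request `k`: point `0` for even `k`, point `1` for odd `k`. -/
def place {n : ℕ} (hn : 2 ≤ n) (k : ℕ) : Fin n :=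
  if k % 2 = 0 then ⟨0, by omega⟩ else ⟨1, by omega⟩

lemma place_eq {n : ℕ} (hn : 2 ≤ n) {k l : ℕ} (h : k % 2 = l % 2) :
    place hn k = place hn l := by
  unfold place; rw [h]

lemma place_ne {n : ℕ} (hn : 2 ≤ n) {k l : ℕ} (h : k % 2 ≠ l % 2) :
    place hn k ≠ place hn l := by
  unfold place
  intro h'
  split_ifs at h' with h1 h2 h2
  · omega
  · simp at h'
  · simp at h'
  · omega

/-- The sequence with `N` regular blocks. -/
def seqA {n : ℕ} (hn : 2 ≤ n) (u : ℝ) (hu : 0 < u) (N : ℕ) : RequestSeq n where
  size := 4 * N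
  even := ⟨2 * N, by ring⟩
  arrival k := u * (slot k : ℝ)
  loc k := place hn k
  nonneg k := by positivity
  sorted := by
    intro k l hkl
    have h : slot k ≤ slot l := slot_mono hkl
    have h' : (slot k : ℝ) ≤ (slot l : ℝ) := by exact_mod_cast h
    exact mul_le_mul_of_nonneg_left h' hu.le

/-- The arrival times in the sequence in which the last request of block `i` is late. -/
noncomputable def arrB (u s : ℝ) (i k : ℕ) : ℝ :=
  if k < 4 * i + 3 then u * (slot k : ℝ) else u * (slot (4 * i + 2) : ℝ) + s

/-- The sequence with `i` regular blocks followed by a block with a late last request. -/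
noncomputable def seqB {n : ℕ} (hn : 2 ≤ n) (u s : ℝ) (hu : 0 < u) (hs : 0 ≤ s) (i : ℕ) :
    RequestSeq n where
  size := 4 * i + 4
  even := ⟨2 * i + 2, by ring⟩
  arrival k := arrB u s i k
  loc k := place hn k
  nonneg k := by unfold arrB; split_ifs <;> positivity
  sorted := by
    intro k l hkl
    have hkl' : (k : ℕ) ≤ l := hkl
    show arrB u s i k ≤ arrB u s i l
    unfold arrB
    split_ifs with h1 h2 h2
    · have h : slot k ≤ slot l := slot_mono hkl'
      have h' : (slot k : ℝ) ≤ (slot l : ℝ) := by exact_mod_cast h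
      exact mul_le_mul_of_nonneg_left h' hu.le
    · have h : slot k ≤ slot (4 * i + 2) := slot_mono (by omega)
      have h' : (slot k : ℝ) ≤ (slot (4 * i + 2) : ℝ) := by exact_mod_cast h
      have := mul_le_mul_of_nonneg_left h' hu.le
      linarith
    · omega
    · exact le_rfl

lemma slot_block0 (i : ℕ) : slot (4 * i) = 10 * i := by unfold slot; split_ifs <;> omega
lemma slot_block1 (i : ℕ) : slot (4 * i + 1) = 10 * i + 3 := by unfold slot; split_ifs <;> omega
lemma slot_block2 (i : ℕ) : slot (4 * i + 2) = 10 * i + 4 := by unfold slot; split_ifs <;> omega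
lemma slot_block3 (i : ℕ) : slot (4 * i + 3) = 10 * i + 5 := by unfold slot; split_ifs <;> omega

lemma arrB_lt {u s : ℝ} {i k : ℕ} (h : k < 4 * i + 3) : arrB u s i k = u * (slot k : ℝ) := by
  unfold arrB; rw [if_pos h]

lemma arrB_last {u s : ℝ} {i : ℕ} : arrB u s i (4 * i + 3) = u * (10 * i + 4) + s := by
  unfold arrB; rw [if_neg (by omega), slot_block2]; push_cast; ring

/-! ## Upper bounds for the offline optimum -/

section upper

variable {n : ℕ} {f : ℝ → ℝ} {D : ℝ}

lemma udist_nonneg (hD : 0 ≤ D) (x y : Fin n) : 0 ≤ udist D x y := by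
  unfold udist; split_ifs
  · exact le_rfl
  · exact hD

lemma udist_le (hD : 0 ≤ D) (x y : Fin n) : udist D x y ≤ D := by
  unfold udist; split_ifs
  · exact hD
  · exact le_rfl

lemma cost_nonneg (hf : IsDelayFunction f) (hD : 0 ≤ D) {σ : RequestSeq n} (S : Schedule σ) :
    0 ≤ S.cost f D := by
  unfold Schedule.cost
  apply add_nonneg
  · apply Finset.sum_nonneg
    intro i _
    apply hf.nonneg
    have := S.arrived i
    linarith
  · apply Finset.sum_nonneg
    intro i _
    split_ifs
    · exact udist_nonneg hD _ _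
    · exact le_rfl

lemma opt_le (hf : IsDelayFunction f) (hD : 0 ≤ D) {σ : RequestSeq n} (S : Schedule σ) :
    opt f D σ ≤ S.cost f D := by
  unfold opt
  apply csInf_le
  · refine ⟨0, ?_⟩
    rintro _ ⟨S', rfl⟩
    exact cost_nonneg hf hD S'
  · exact ⟨S, rfl⟩

/-- The offline solution for the regular sequence. -/
def schedA (hn : 2 ≤ n) (u : ℝ) (hu : 0 < u) (N : ℕ) : Schedule (seqA hn u hu N) where
  partner k := ⟨if (k : ℕ) % 4 < 2 then k + 2 else k - 2, by
    have hk : (k : ℕ) < 4 * N := k.2
    show _ < 4 * N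
    split_ifs <;> omega⟩
  time k := u * (slot (if (k : ℕ) % 4 < 2 then k + 2 else k) : ℝ)
  partner_ne k := by
    intro h
    have h' := congrArg Fin.val h
    simp only at h'
    split_ifs at h' <;> omega
  partner_partner k := by
    apply Fin.ext
    simp only
    split_ifs <;> omega
  time_partner k := by
    simp only
    congr 3
    split_ifs <;> omega
  arrived k := by
    show u * (slot k : ℝ) ≤ _
    have h : slot k ≤ slot (if (k : ℕ) % 4 < 2 then k + 2 else k) := by
      apply slot_mono; split_ifs <;> omega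
    have h' : (slot k : ℝ) ≤ (slot (if (k : ℕ) % 4 < 2 then k + 2 else k) : ℝ) := by
      exact_mod_cast h
    exact mul_le_mul_of_nonneg_left h' hu.le

lemma delay_le (hf : IsDelayFunction f) {u : ℝ} (hu : 0 < u) {k l : ℕ}
    (h1 : slot k ≤ slot l) (h2 : slot l ≤ slot k + 4) :
    f (u * (slot l : ℝ) - u * (slot k : ℝ)) ≤ f (4 * u) := by
  have h1' : (slot k : ℝ) ≤ (slot l : ℝ) := by exact_mod_cast h1
  have h2' : (slot l : ℝ) ≤ (slot k : ℝ) + 4 := by exact_mod_cast h2
  apply hf.mono
  · show (0 : ℝ) ≤ _
    have := mul_le_mul_of_nonneg_left h1' hu.le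
    linarith
  · show (0 : ℝ) ≤ _
    positivity
  · have := mul_le_mul_of_nonneg_left h2' hu.le
    linarith

lemma opt_seqA (hf : IsDelayFunction f) (hD : 0 ≤ D) (hn : 2 ≤ n) (u : ℝ) (hu : 0 < u) (N : ℕ) :
    opt f D (seqA hn u hu N) ≤ N * (4 * f (4 * u)) := by
  refine (opt_le hf hD (schedA hn u hu N)).trans ?_
  unfold Schedule.cost
  have h1 : ∑ k, f ((schedA hn u hu N).time k - (seqA hn u hu N).arrival k)
      ≤ ∑ _k : Fin (4 * N), f (4 * u) := by
    apply Finset.sum_le_sum
    intro k _
    show f (u * (slot (if (k : ℕ) % 4 < 2 then k + 2 else k) : ℝ) - u * (slot k : ℝ)) ≤ _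
    apply delay_le hf hu
    · apply slot_mono; split_ifs <;> omega
    · unfold slot; split_ifs <;> omega
  have h2 : ∑ k, (if k < (schedA hn u hu N).partner k then
      udist D ((seqA hn u hu N).loc k) ((seqA hn u hu N).loc ((schedA hn u hu N).partner k))
      else 0) = 0 := by
    apply Finset.sum_eq_zero
    intro k _
    have : (seqA hn u hu N).loc k = (seqA hn u hu N).loc ((schedA hn u hu N).partner k) := by
      show place hn k = place hn (if (k : ℕ) % 4 < 2 then k + 2 else k - 2)
      apply place_eq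
      split_ifs <;> omega
    rw [← this]
    simp [udist]
  rw [h2]
  simp only [Finset.sum_const, Finset.card_univ, Fintype.card_fin, nsmul_eq_mul] at h1
  push_cast at h1
  linarith

/-- The offline solution for the sequence with a late last request. -/
noncomputable def schedB (hn : 2 ≤ n) (u s : ℝ) (hu : 0 < u) (hs : 0 ≤ s) (i : ℕ) :
    Schedule (seqB hn u s hu hs i) where
  partner k := ⟨if (k : ℕ) < 4 * i then (if (k : ℕ) % 4 < 2 then k + 2 else k - 2)
      else (if (k : ℕ) % 2 = 0 then k + 1 else k - 1), by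
    have hk : (k : ℕ) < 4 * i + 4 := k.2
    show _ < 4 * i + 4
    split_ifs <;> omega⟩
  time k := if (k : ℕ) < 4 * i then u * (slot (if (k : ℕ) % 4 < 2 then k + 2 else k) : ℝ)
    else if (k : ℕ) < 4 * i + 2 then u * (slot (4 * i + 1) : ℝ) else arrB u s i (4 * i + 3)
  partner_ne k := by
    intro h
    have h' := congrArg Fin.val h
    simp only at h'
    split_ifs at h' <;> omega
  partner_partner k := by
    apply Fin.ext
    simp only
    split_ifs <;> omega
  time_partner k := by
    simp only
    have hk : (k : ℕ) < 4 * i + 4 := k.2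
    by_cases h1 : (k : ℕ) < 4 * i
    · have h2 : (if (k : ℕ) % 4 < 2 then (k : ℕ) + 2 else k - 2) < 4 * i := by
        split_ifs <;> omega
      simp only [if_pos h1, if_pos h2]
      congr 3
      split_ifs <;> omega
    · by_cases h3 : (k : ℕ) < 4 * i + 2
      · have h2 : ¬ ((if (k : ℕ) % 2 = 0 then (k : ℕ) + 1 else k - 1) < 4 * i) := by
          split_ifs <;> omega
        have h4 : (if (k : ℕ) % 2 = 0 then (k : ℕ) + 1 else k - 1) < 4 * i + 2 := by
          split_ifs <;> omega
        simp only [if_neg h1, if_neg h2, if_pos h3, if_pos h4]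
      · have h2 : ¬ ((if (k : ℕ) % 2 = 0 then (k : ℕ) + 1 else k - 1) < 4 * i) := by
          split_ifs <;> omega
        have h4 : ¬ ((if (k : ℕ) % 2 = 0 then (k : ℕ) + 1 else k - 1) < 4 * i + 2) := by
          split_ifs <;> omega
        simp only [if_neg h1, if_neg h2, if_neg h3, if_neg h4]
  arrived k := by
    have hk : (k : ℕ) < 4 * i + 4 := k.2
    show arrB u s i k ≤ _
    by_cases h1 : (k : ℕ) < 4 * i
    · simp only [if_pos h1]
      rw [arrB_lt (by omega)]
      have h : slot k ≤ slot (if (k : ℕ) % 4 < 2 then k + 2 else k) := by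
        apply slot_mono; split_ifs <;> omega
      have h' : (slot k : ℝ) ≤ (slot (if (k : ℕ) % 4 < 2 then k + 2 else k) : ℝ) := by
        exact_mod_cast h
      exact mul_le_mul_of_nonneg_left h' hu.le
    · by_cases h3 : (k : ℕ) < 4 * i + 2
      · simp only [if_neg h1, if_pos h3]
        rw [arrB_lt (by omega)]
        have h : slot k ≤ slot (4 * i + 1) := slot_mono (by omega)
        have h' : (slot k : ℝ) ≤ (slot (4 * i + 1) : ℝ) := by exact_mod_cast h
        exact mul_le_mul_of_nonneg_left h' hu.le
      · simp only [if_neg h1, if_neg h3]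
        exact (seqB hn u s hu hs i).sorted (a := k) (b := ⟨4 * i + 3, by
          show 4 * i + 3 < 4 * i + 4; omega⟩) (by
          show (k : ℕ) ≤ 4 * i + 3; omega)

lemma opt_seqB (hf : IsDelayFunction f) (hD : 0 ≤ D) (hn : 2 ≤ n) (u s : ℝ) (hu : 0 < u)
    (hs : 0 ≤ s) (i : ℕ) :
    opt f D (seqB hn u s hu hs i) ≤ (4 * i + 4) * (f (4 * u) + D) + f s := by
  refine (opt_le hf hD (schedB hn u s hu hs i)).trans ?_
  unfold Schedule.cost
  have hfs : 0 ≤ f s := hf.nonneg s hs
  have hf4 : 0 ≤ f (4 * u) := hf.nonneg _ (by positivity)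
  have h1 : ∑ k, f ((schedB hn u s hu hs i).time k - (seqB hn u s hu hs i).arrival k)
      ≤ ∑ k : Fin (4 * i + 4), (f (4 * u) + if (k : ℕ) = 4 * i + 2 then f s else 0) := by
    apply Finset.sum_le_sum
    intro k _
    have hk : (k : ℕ) < 4 * i + 4 := k.2
    show f ((if (k : ℕ) < 4 * i then u * (slot (if (k : ℕ) % 4 < 2 then k + 2 else k) : ℝ)
      else if (k : ℕ) < 4 * i + 2 then u * (slot (4 * i + 1) : ℝ) else arrB u s i (4 * i + 3))
        - arrB u s i k) ≤ _
    by_cases h1 : (k : ℕ) < 4 * i
    · have e0 : ¬ ((k : ℕ) = 4 * i + 2) := by omega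
      rw [if_pos h1, arrB_lt (by omega), if_neg e0, add_zero]
      apply delay_le hf hu
      · apply slot_mono; split_ifs <;> omega
      · unfold slot; split_ifs <;> omega
    · by_cases h3 : (k : ℕ) < 4 * i + 2
      · have e0 : ¬ ((k : ℕ) = 4 * i + 2) := by omega
        rw [if_neg h1, if_pos h3, arrB_lt (by omega), if_neg e0, add_zero]
        apply delay_le hf hu
        · apply slot_mono; omega
        · unfold slot; split_ifs <;> omega
      · rw [if_neg h1, if_neg h3]
        by_cases h4 : (k : ℕ) = 4 * i + 2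
        · rw [if_pos h4, h4, arrB_last, arrB_lt (by omega), slot_block2]
          have e : u * (10 * (i : ℝ) + 4) + s - u * ((10 * i + 4 : ℕ) : ℝ) = s := by
            push_cast; ring
          rw [e]
          linarith
        · have h5 : (k : ℕ) = 4 * i + 3 := by omega
          rw [if_neg h4, h5, sub_self, hf.zero]
          linarith
  have h2 : ∑ k, (if k < (schedB hn u s hu hs i).partner k then
      udist D ((seqB hn u s hu hs i).loc k)
        ((seqB hn u s hu hs i).loc ((schedB hn u s hu hs i).partner k))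
      else 0) ≤ ∑ _k : Fin (4 * i + 4), D := by
    apply Finset.sum_le_sum
    intro k _
    split_ifs
    · exact udist_le hD _ _
    · exact hD
  have h3 : ∑ k : Fin (4 * i + 4), (f (4 * u) + if (k : ℕ) = 4 * i + 2 then f s else 0)
      = (4 * i + 4) * f (4 * u) + f s := by
    rw [Finset.sum_add_distrib]
    congr 1
    · simp only [Finset.sum_const, Finset.card_univ, Fintype.card_fin, nsmul_eq_mul]
      push_cast; ring
    · rw [Finset.sum_eq_single (⟨4 * i + 2, by omega⟩ : Fin (4 * i + 4))]
      · simp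
      · intro b _ hb
        rw [if_neg]
        intro h
        exact hb (Fin.ext h)
      · intro h
        exact absurd (Finset.mem_univ _) h
  rw [h3] at h1
  simp only [Finset.sum_const, Finset.card_univ, Fintype.card_fin, nsmul_eq_mul] at h2
  push_cast at h2
  linarith

end upper

end Helper42_MCD
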